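import Pool.Agent.H24.GM.FinM

/-!
# Graph covers: the dichotomy for all graphs

Let `H` be a graph on `Fin n`. The problem to decide whether a graph covers `H` (`LB H`) is in P or
NP-complete. If `H` has no branch vertex (`Br`) then `LB H ∈ P`. Otherwise `H` has a base `ι` (`Base`): a
system of components with branch vertices, none of which covers another one, such that every component
with a branch vertex covers one of them. For every base `LB H` is in P if the finite template `TR (H.comap ι)` has operations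
as in `Few (2 ^ m)` (of bounded arity), and NP-complete if it has no such operations.
-/

namespace Pool.Agent.Results.MP_cb20e7_lc.Dichotomy

open Pool.Agent.H24.GC Pool.Agent.H24.GE Pool.Agent.H24.GG Pool.Agent.H24.GK Pool.Agent.H24.GM
  Pool.Agent.PPS Pool.Agent.H64.Cook

theorem result {n : ℕ} (H : SimpleGraph (Fin n)) :
    (LB H ∈ P ∨ (LB H ∈ NP ∧ ∀ L ∈ NP, Red L (LB H))) ∧
    ((∀ v, ¬ Br H v) → LB H ∈ P) ∧
    ((∃ v, Br H v) → (∃ (m : ℕ) (ι : Fin m → Fin n), Base H ι) ∧
      ∀ (m : ℕ) (ι : Fin m → Fin n), Base H ι →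
        (Few (2 ^ m) (TR (H.comap ι)) → LB H ∈ P) ∧
        (¬ Few (2 ^ m) (TR (H.comap ι)) → LB H ∈ NP ∧ ∀ L ∈ NP, Red L (LB H))) := by
  refine ⟨dich H, fun h => final_P h, fun hb => ⟨exists_base H, fun m ι hι => ?_⟩⟩
  have hm : 0 < m := by
    obtain ⟨v, hv⟩ := hb
    obtain ⟨u, -⟩ := hι.cov v ⟨v, hv, SimpleGraph.Reachable.refl v⟩
    exact u.pos
  exact ⟨fun h => few_easy hb hι h, fun h => few_hard hι h hm⟩

end Pool.Agent.Results.MP_cb20e7_lc.Dichotomy
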