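import Pool.Agent.H24.GK.FinalK

/-!
# Graph covers: equivalence with a constraint satisfaction problem, for all graphs

Let `H` be a graph on `Fin n`. If `H` has no branch vertex (`Br`) then the problem to decide whether a
graph covers `H` (`LB H`) is in P. Otherwise `H` has a base `ι` (`Base`): a system of components with
branch vertices, none of which covers another one, such that every component with a branch vertex covers
one of them. For every base `LB H` is equivalent, under polynomial time many-one reductions, to the
constraint satisfaction problem `CSet (TR (H.comap ι))` with a fixed finite template (binary relations).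
-/

namespace Pool.Agent.Results.MP_cb20e7_lc.Equivalence

open Pool.Agent.H24.GC Pool.Agent.H24.GE Pool.Agent.H24.GG Pool.Agent.H24.GK Pool.Agent.PPS

theorem result {n : ℕ} (H : SimpleGraph (Fin n)) :
    ((∀ v, ¬ Br H v) → LB H ∈ P) ∧
    ((∃ v, Br H v) → (∃ (m : ℕ) (ι : Fin m → Fin n), Base H ι) ∧
      ∀ (m : ℕ) (ι : Fin m → Fin n), Base H ι → PolyEq (LB H) (CSet (TR (H.comap ι)))) :=
  ⟨fun h => final_P h, fun hb => ⟨exists_base H, fun _ _ hι => final_eq hb hι⟩⟩

end Pool.Agent.Results.MP_cb20e7_lc.Equivalence
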