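import Pool.Agent.H24.GF.FinalF

/-!
# Graph covers: connected graphs of minimum degree at least three

`Sim H x y`: `x` and `y` are in the same class of the degree partition (the coarsest equitable
partition) of `H`; `nbc H x y`: the neighbours of `x` in the class of `y`; `Lnk H c x x'`: `x` and `x'` are
different vertices of one class with a common neighbour in the class of `c`. Let `H` be connected with all
degrees at least 3. If (a) some vertex has three neighbours in one class, or (b) some vertex `x` has two
neighbours in one class with different neighbourhoods in the class of `x`, or (c) two swaps of a class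
do not commute, then `H`-LBHOM is NP-complete. So it is NP-complete unless all components of all the
graphs spanned by the edges between two classes (or inside of one class) are `K_2`, `K_{1,2}` or `C_4`, and
the swaps of the pairs commute. No condition on cuts is needed.
-/

namespace Pool.Agent.Results.MP_cb20e7_lc.MinDegreeThree

open Pool.Agent.H24.GC

theorem result {V : Type} [Finite V] (H : SimpleGraph V) (hcon : H.Connected)
    (h3 : ∀ x, 3 ≤ (H.neighborSet x).ncard)
    (h : (∃ x y, 3 ≤ (nbc H x y).ncard) ∨
      (∃ x y y', H.Adj x y ∧ H.Adj x y' ∧ Sim H y y' ∧ nbc H y x ≠ nbc H y' x) ∨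
      (∃ c d x x₁ x₂ x₃ x₄, Lnk H c x x₁ ∧ Lnk H d x₁ x₂ ∧ Lnk H d x x₃ ∧ Lnk H c x₃ x₄ ∧
        x₂ ≠ x₄)) :
    NPComplete (fun _ G => Covers G H) :=
  Pool.Agent.H24.GF.final_hard h3 hcon h

end Pool.Agent.Results.MP_cb20e7_lc.MinDegreeThree
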