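import Pool.Agent.H24.GC.Final
import Pool.Agent.H24.GD.Wide

/-!
# Graph covers: a vertex with three neighbours in one class

`Sim H x y`: `x` and `y` are in the same class of the degree partition (the coarsest equitable
partition) of `H`; `nbc H x y`: the neighbours of `x` in the class of `y`; `Ty H x y a b`: the pair
`a b` is of the type `x y`; `CutOK H P`: every edge cut consisting of edges with property `P` has at
least three edges or contains two disjoint edges. If a vertex `x` has at least three neighbours in the
class of its neighbour `y`, and `y` has a neighbour `z` different from `x`, such that `CutOK` holds for the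
edges of the types `x y` and `z y`, then `H`-LBHOM is NP-complete.
-/

namespace Pool.Agent.Results.MP_cb20e7_lc.SmallCuts

open Pool.Agent.H24.GC Pool.Agent.H24.GD

theorem result {V : Type} [Finite V] (H : SimpleGraph V) (x y z : V) (hxy : H.Adj x y)
    (h3 : 3 ≤ (nbc H x y).ncard) (hyz : H.Adj y z) (hzx : z ≠ x)
    (hP : CutOK H (fun a b => Ty H x y a b ∨ Ty H z y a b)) :
    NPComplete (fun _ G => Covers G H) :=
  npc_of_hard (wide_hard hxy h3 hyz hzx hP)

end Pool.Agent.Results.MP_cb20e7_lc.SmallCuts
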